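import Mathlib
import Pool.Agent.W24.CP.Fin

/-! Generic weights: mean and mean square of the error term at integers with weights. -/

set_option autoImplicit false

open Finset
open Pool.Agent.H383
open Pool.Agent.H383.Gen (Bd U)
open Pool.Agent.H452R2.Win Pool.Agent.H452R2.Om
open Pool.Agent.H469R2.NK
open Pool.Agent.W24.CP

namespace Pool.Agent.N687.P

variable {E : ℝ → ℝ} {a : ℕ → ℝ} {φ : ℝ} {w : ℝ → ℂ}

open Classical in
/-- mean-square approximation on dyadic blocks, and the mean square -/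
theorem appr (ha : Bdw a) (ha0 : a 0 = 0) (hw : GW.Wt w) {κ₁ κ₂ : ℝ} (hS : SandW E a φ w κ₁ κ₂) {c : ℝ} (hc : 0 < c) :
    ∃ δ : ℝ, 0 < δ ∧ δ ≤ 1/819200 ∧ ∃ C : ℝ, 0 < C ∧ ∃ N2 : ℕ, ∀ N : ℕ, N2 ≤ N → 1 ≤ N → ∃ M : ℕ, 1 ≤ M ∧
      (N:ℝ) ^ (1/1024:ℝ) / 2 ≤ M ∧ (M:ℝ) ≤ (N:ℝ) ^ (1/1024:ℝ) ∧ (c + 1/c) * M ≤ (N:ℝ) ^ (1/8:ℝ) ∧
      ∀ N' : ℕ, N' ≤ 2 * N →
        ∑ n ∈ Ioc N N', (E (c * √(n:ℝ)) - U a φ (c * √(n:ℝ)) M)^2 ≤ C * (N * (N:ℝ) ^ (-(4 * δ))) ∧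
        ∑ n ∈ Ioc N N', (E (c * √(n:ℝ)))^2 ≤ C * N := by
  obtain ⟨ω, hω, hω2, C, hC, T0, hms⟩ := ms_T ha ha0 hw hS hc
  set δ : ℝ := ω / 4096 with hδ
  have hδ0 : 0 < δ := by positivity
  have hδ1 : δ ≤ 1/819200 := by rw [hδ]; linarith
  have ev1 : ∀ᶠ N : ℕ in Filter.atTop, (c + 1/c) ≤ (N:ℝ) ^ (1/16:ℝ) :=
    (((tendsto_rpow_atTop (by norm_num : (0:ℝ) < 1/16)).comp tendsto_natCast_atTop_atTop).eventually_ge_atTop _)
  have ev2 : ∀ᶠ N : ℕ in Filter.atTop, 8 / min 1 c ≤ (N:ℝ) ^ (1/4:ℝ) :=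
    (((tendsto_rpow_atTop (by norm_num : (0:ℝ) < 1/4)).comp tendsto_natCast_atTop_atTop).eventually_ge_atTop _)
  obtain ⟨N1, hN1⟩ := Filter.eventually_atTop.mp (ev1.and ev2)
  refine ⟨δ, hδ0, hδ1, 6 * C + 2 * (a 1)^2, by positivity, max (max N1 ((T0 + 1)^2)) 16, ?_⟩
  intro N hbig hN
  have hN0 : (1:ℝ) ≤ N := by exact_mod_cast hN
  have hNpos : (0:ℝ) < N := by linarith
  have hNN1 : N1 ≤ N := le_trans (le_trans (le_max_left _ _) (le_max_left _ _)) hbig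
  have hNT : (T0 + 1)^2 ≤ N := le_trans (le_trans (le_max_right _ _) (le_max_left _ _)) hbig
  have hN16 : 16 ≤ N := le_trans (le_max_right _ _) hbig
  obtain ⟨g1, g2⟩ := hN1 N hNN1
  set T := Nat.sqrt N with hT
  have hTT0 : T0 + 1 ≤ T := by rw [hT, Nat.le_sqrt']; exact hNT
  have hT4 : 4 ≤ T := by rw [hT, Nat.le_sqrt']; exact hN16
  have hTN : T^2 ≤ N := Nat.sqrt_le' N
  have hTN2 : N < (T+1)^2 := Nat.lt_succ_sqrt' N
  have hTr : (4:ℝ) ≤ T := by exact_mod_cast hT4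
  have hTpos : (0:ℝ) < T := by linarith
  have hTle : (T:ℝ)^2 ≤ N := by exact_mod_cast hTN
  have hTge : √(N:ℝ) / 2 ≤ T := by
    have h1 : √(N:ℝ) ≤ T + 1 := by
      rw [Real.sqrt_le_left (by positivity)]
      exact_mod_cast hTN2.le
    linarith
  -- the parameter
  set u : ℝ := (N:ℝ) ^ (1/1024:ℝ) with hu
  have hu1 : 1 ≤ u := Real.one_le_rpow hN0 (by norm_num)
  set M : ℕ := ⌊u⌋₊ with hM
  have hM1 : 1 ≤ M := by rw [hM, Nat.one_le_floor_iff]; exact hu1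
  have hMu : (M:ℝ) ≤ u := Nat.floor_le (by linarith)
  have hM1r : (1:ℝ) ≤ M := by exact_mod_cast hM1
  have huM : u / 2 ≤ M := by
    have h1 := Nat.lt_floor_add_one u
    rw [← hM] at h1
    linarith
  have hsN : √(N:ℝ) = (N:ℝ) ^ (1/2:ℝ) := Real.sqrt_eq_rpow _
  have hMT : 2 * ((M:ℝ) + 1) ≤ min 1 c * T := by
    have hm0 : 0 < min 1 c := by positivity
    rw [div_le_iff₀ hm0] at g2
    have h1 : 2 * ((M:ℝ) + 1) ≤ 4 * u := by linarith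
    have h2 : u ≤ (N:ℝ) ^ (1/4:ℝ) := Real.rpow_le_rpow_of_exponent_le hN0 (by norm_num)
    have h3 : (N:ℝ) ^ (1/4:ℝ) * (N:ℝ) ^ (1/4:ℝ) = √(N:ℝ) := by
      rw [← Real.rpow_add hNpos, hsN]; norm_num
    have h4 : 0 < (N:ℝ) ^ (1/4:ℝ) := by positivity
    calc 2 * ((M:ℝ) + 1) ≤ 4 * (N:ℝ) ^ (1/4:ℝ) := by linarith
      _ = (8 * (N:ℝ) ^ (1/4:ℝ)) / 2 := by ring
      _ ≤ (((N:ℝ) ^ (1/4:ℝ) * min 1 c) * (N:ℝ) ^ (1/4:ℝ)) / 2 := by gcongr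
      _ = min 1 c * (((N:ℝ) ^ (1/4:ℝ) * (N:ℝ) ^ (1/4:ℝ)) / 2) := by ring
      _ = min 1 c * (√(N:ℝ) / 2) := by rw [h3]
      _ ≤ min 1 c * T := mul_le_mul_of_nonneg_left hTge hm0.le
  have hMT1 : 2 * (((1:ℕ):ℝ) + 1) ≤ min 1 c * T := by
    refine le_trans ?_ hMT
    push_cast
    linarith
  have key := hms T (by omega) M hM1 hMT
  have key1 := hms T (by omega) 1 le_rfl hMT1
  have hW : (M:ℝ) ^ (-ω) + (M:ℝ)^4 * (T:ℝ) ^ (-1:ℝ) + (T:ℝ) ^ (-ω) ≤ 6 * (N:ℝ) ^ (-(4 * δ)) := by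
    have h2ω : (2:ℝ) ^ ω ≤ 2 := by
      calc (2:ℝ) ^ ω ≤ (2:ℝ) ^ (1:ℝ) := Real.rpow_le_rpow_of_exponent_le (by norm_num) (by linarith)
        _ = 2 := by norm_num
    have w1 : (M:ℝ) ^ (-ω) ≤ 2 * (N:ℝ) ^ (-(4 * δ)) := by
      calc (M:ℝ) ^ (-ω) ≤ (u/2) ^ (-ω) := Real.rpow_le_rpow_of_nonpos (by linarith) huM (by linarith)
        _ = u ^ (-ω) * 2 ^ ω := by
            rw [Real.div_rpow (by linarith) (by norm_num), Real.rpow_neg (by norm_num : (0:ℝ) ≤ 2)]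
            field_simp
        _ ≤ u ^ (-ω) * 2 := by gcongr
        _ = 2 * (N:ℝ) ^ (-(4 * δ)) := by
            rw [hu, ← Real.rpow_mul hNpos.le, mul_comm]
            congr 2
            rw [hδ]; ring
    have w2 : (M:ℝ)^4 * (T:ℝ) ^ (-1:ℝ) ≤ 2 * (N:ℝ) ^ (-(4 * δ)) := by
      calc (M:ℝ)^4 * (T:ℝ) ^ (-1:ℝ) ≤ u^4 * (√(N:ℝ) / 2) ^ (-1:ℝ) := by
            apply mul_le_mul (pow_le_pow_left₀ (by linarith) hMu 4) _ (by positivity) (by positivity)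
            exact Real.rpow_le_rpow_of_nonpos (by positivity) hTge (by norm_num)
        _ = 2 * ((N:ℝ) ^ (1/256:ℝ) * (N:ℝ) ^ (-(1/2):ℝ)) := by
            rw [Real.rpow_neg_one, hu, ← Real.rpow_natCast, ← Real.rpow_mul hNpos.le, hsN, Real.rpow_neg hNpos.le]
            norm_num
            ring
        _ = 2 * (N:ℝ) ^ (-(127/256):ℝ) := by rw [← Real.rpow_add hNpos]; norm_num
        _ ≤ 2 * (N:ℝ) ^ (-(4 * δ)) := by
            apply mul_le_mul_of_nonneg_left _ (by norm_num)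
            apply Real.rpow_le_rpow_of_exponent_le hN0
            linarith
    have w3 : (T:ℝ) ^ (-ω) ≤ 2 * (N:ℝ) ^ (-(4 * δ)) := by
      calc (T:ℝ) ^ (-ω) ≤ (√(N:ℝ) / 2) ^ (-ω) := Real.rpow_le_rpow_of_nonpos (by positivity) hTge (by linarith)
        _ = √(N:ℝ) ^ (-ω) * 2 ^ ω := by
            rw [Real.div_rpow (by positivity) (by norm_num), Real.rpow_neg (by norm_num : (0:ℝ) ≤ 2)]
            field_simp
        _ ≤ √(N:ℝ) ^ (-ω) * 2 := by gcongr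
        _ = 2 * (N:ℝ) ^ (-(ω/2)) := by
            rw [hsN, ← Real.rpow_mul hNpos.le, mul_comm]
            congr 2
            ring
        _ ≤ 2 * (N:ℝ) ^ (-(4 * δ)) := by
            apply mul_le_mul_of_nonneg_left _ (by norm_num)
            apply Real.rpow_le_rpow_of_exponent_le hN0
            rw [hδ]; linarith
    linarith
  have hm8 : (c + 1/c) * M ≤ (N:ℝ) ^ (1/8:ℝ) := by
    have h0 : 0 < c + 1/c := by positivity
    calc (c + 1/c) * M ≤ (N:ℝ) ^ (1/16:ℝ) * (N:ℝ) ^ (1/1024:ℝ) := by gcongr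
      _ = (N:ℝ) ^ (1/16 + 1/1024:ℝ) := by rw [← Real.rpow_add hNpos]
      _ ≤ (N:ℝ) ^ (1/8:ℝ) := Real.rpow_le_rpow_of_exponent_le hN0 (by norm_num)
  refine ⟨M, hM1, huM, hMu, hm8, ?_⟩
  intro N' hN'
  have hsub : Ioc N N' ⊆ Ico (T^2) (4 * T^2) := by
    intro n hn
    rw [mem_Ioc] at hn
    rw [mem_Ico]
    constructor
    · omega
    · nlinarith
  have hN4 : 0 < (N:ℝ) ^ (-(4 * δ)) := by positivity
  constructor
  · calc _ ≤ ∑ n ∈ Ico (T^2) (4*T^2), (E (c * √(n:ℝ)) - U a φ (c * √(n:ℝ)) M)^2 :=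
            sum_le_sum_of_subset_of_nonneg hsub (fun _ _ _ => sq_nonneg _)
      _ ≤ C * (T:ℝ)^2 * ((M:ℝ) ^ (-ω) + (M:ℝ)^4 * (T:ℝ) ^ (-1:ℝ) + (T:ℝ) ^ (-ω)) := key
      _ ≤ C * N * (6 * (N:ℝ) ^ (-(4 * δ))) := by gcongr
      _ = (6 * C) * (N * (N:ℝ) ^ (-(4 * δ))) := by ring
      _ ≤ _ := by
          apply mul_le_mul_of_nonneg_right _ (by positivity)
          have : 0 ≤ 2 * (a 1)^2 := by positivity
          linarith
  · have hT1 : (T:ℝ) ^ (-1:ℝ) ≤ 1 := Real.rpow_le_one_of_one_le_of_nonpos (by linarith) (by norm_num)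
    have hT2 : (T:ℝ) ^ (-ω) ≤ 1 := Real.rpow_le_one_of_one_le_of_nonpos (by linarith) (by linarith)
    have hk1 : ∑ n ∈ Ioc N N', (E (c * √(n:ℝ)) - U a φ (c * √(n:ℝ)) 1)^2 ≤ 3 * C * N := by
      calc _ ≤ ∑ n ∈ Ico (T^2) (4*T^2), (E (c * √(n:ℝ)) - U a φ (c * √(n:ℝ)) 1)^2 :=
            sum_le_sum_of_subset_of_nonneg hsub (fun _ _ _ => sq_nonneg _)
        _ ≤ _ := key1
        _ ≤ C * (T:ℝ)^2 * 3 := by
            apply mul_le_mul_of_nonneg_left _ (by positivity)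
            push_cast
            rw [Real.one_rpow]
            linarith
        _ ≤ C * N * 3 := by gcongr
        _ = _ := by ring
    have hU1 : ∀ n : ℕ, (U a φ (c * √(n:ℝ)) 1)^2 ≤ (a 1)^2 := by
      intro n
      unfold U
      rw [one_pow, Icc_self, sum_singleton, mul_pow]
      have h1 := Real.cos_sq_le_one (2 * Real.pi * (c * √(n:ℝ) * √((1:ℕ):ℝ)) - φ)
      have h2 : 0 ≤ (a 1)^2 := sq_nonneg _
      nlinarith
    have hpt : ∀ n ∈ Ioc N N', (E (c * √(n:ℝ)))^2 ≤ 2 * (E (c * √(n:ℝ)) - U a φ (c * √(n:ℝ)) 1)^2 + 2 * (a 1)^2 := by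
      intro n _
      have h1 := hU1 n
      nlinarith [sq_nonneg (E (c * √(n:ℝ)) - 2 * U a φ (c * √(n:ℝ)) 1)]
    refine (sum_le_sum hpt).trans ?_
    rw [sum_add_distrib, ← mul_sum, sum_const, Nat.card_Ioc, nsmul_eq_mul]
    have h3 : ((N' - N : ℕ):ℝ) ≤ N := by exact_mod_cast (by omega : N' - N ≤ N)
    have h4 : 0 ≤ 2 * (a 1)^2 := by positivity
    nlinarith

end Pool.Agent.N687.P
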