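import Mathlib
import Pool.Agent.W24.CP.Fin

/-! Weights: primes, residue classes. -/

set_option autoImplicit false

open Finset
open Pool.Agent.H383
open Pool.Agent.H469R2.NK
open Pool.Agent.W24.CP

namespace Pool.Agent.N687.P

/-- Abel summation on a block -/
lemma abel_block (f : ℕ → ℂ) (g : ℕ → ℝ) (N K : ℕ) :
    ∑ n ∈ Ioc N (N + K), f n * ((g n : ℝ) : ℂ) =
      (∑ n ∈ Ioc N (N + K), f n) * ((g (N + K) : ℝ) : ℂ) +
        ∑ n ∈ Ico N (N + K), (∑ k ∈ Ioc N n, f k) * (((g n - g (n + 1) : ℝ)) : ℂ) := by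
  induction K with
  | zero => simp
  | succ K ih =>
    rw [← add_assoc, sum_Ioc_succ_top (by omega), ih, sum_Ioc_succ_top (by omega : N ≤ N + K),
      sum_Ico_succ_top (by omega : N ≤ N + K)]
    push_cast
    ring

/-- decreasing weights -/
lemma abel_dec (f : ℕ → ℂ) (g : ℕ → ℝ) {B G : ℝ} (N N' : ℕ) (hNN : N ≤ N')
    (hg : ∀ n, N < n → n < N' → g (n + 1) ≤ g n) (hg0 : ∀ n, N < n → n ≤ N' → 0 ≤ g n ∧ g n ≤ G) (hB : 0 ≤ B)
    (hG : 0 ≤ G) (h : ∀ n, N ≤ n → n ≤ N' → ‖∑ k ∈ Ioc N n, f k‖ ≤ B) :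
    ‖∑ n ∈ Ioc N N', f n * ((g n : ℝ) : ℂ)‖ ≤ B * G := by
  obtain ⟨K, rfl⟩ := Nat.exists_eq_add_of_le hNN
  rcases Nat.eq_zero_or_pos K with hK | hK
  · subst hK
    simp
    positivity
  rw [abel_block]
  refine (norm_add_le _ _).trans ?_
  have h1 : ‖(∑ n ∈ Ioc N (N + K), f n) * ((g (N + K) : ℝ) : ℂ)‖ ≤ B * g (N + K) := by
    rw [norm_mul, Complex.norm_real, Real.norm_eq_abs, abs_of_nonneg (hg0 _ (by omega) le_rfl).1]
    exact mul_le_mul_of_nonneg_right (h _ (by omega) le_rfl) (hg0 _ (by omega) le_rfl).1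
  have h2 : ‖∑ n ∈ Ico N (N + K), (∑ k ∈ Ioc N n, f k) * (((g n - g (n + 1) : ℝ)) : ℂ)‖ ≤ B * (g (N + 1) - g (N + K)) := by
    rw [sum_eq_sum_Ico_succ_bot (by omega : N < N + K)]
    rw [Ioc_self, sum_empty, zero_mul, zero_add]
    refine (norm_sum_le _ _).trans ?_
    have h3 : ∀ n ∈ Ico (N + 1) (N + K), ‖(∑ k ∈ Ioc N n, f k) * (((g n - g (n + 1) : ℝ)) : ℂ)‖ ≤ B * (g n - g (n + 1)) := by
      intro n hn
      rw [mem_Ico] at hn
      have h4 := hg n (by omega) (by omega)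
      rw [norm_mul, Complex.norm_real, Real.norm_eq_abs, abs_of_nonneg (by linarith)]
      exact mul_le_mul_of_nonneg_right (h n (by omega) (by omega)) (by linarith)
    refine (sum_le_sum h3).trans (le_of_eq ?_)
    rw [← mul_sum]
    congr 1
    have h5 : ∀ m : ℕ, N + 1 ≤ m → ∑ n ∈ Ico (N + 1) m, (g n - g (n + 1)) = g (N + 1) - g m := by
      intro m hm
      induction m, hm using Nat.le_induction with
      | base => simp
      | succ m hm ih => rw [sum_Ico_succ_top hm, ih]; ring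
    exact h5 _ (by omega)
  have h6 := (hg0 (N + 1) (by omega) (by omega)).2
  nlinarith

/-- increasing weights on initial segments -/
lemma abel_inc (f : ℕ → ℂ) (g : ℕ → ℝ) {B : ℝ} (N : ℕ) (hN : 1 ≤ N) (hg : ∀ n, g n ≤ g (n + 1)) (hg0 : ∀ n, 0 ≤ g n)
    (hB : 0 ≤ B) (h : ∀ n, 1 ≤ n → n ≤ N → ‖∑ k ∈ Icc 1 n, f k‖ ≤ B) :
    ‖∑ n ∈ Icc 1 N, f n * ((g n : ℝ) : ℂ)‖ ≤ 2 * B * g N := by
  obtain ⟨K, rfl⟩ : ∃ K, N = K + 1 := ⟨N - 1, by omega⟩
  rw [abel_id]
  have h1 : ‖(∑ n ∈ Icc 1 (K + 1), f n) * ((g (K + 1) : ℝ) : ℂ)‖ ≤ B * g (K + 1) := by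
    rw [norm_mul, Complex.norm_real, Real.norm_eq_abs, abs_of_nonneg (hg0 _)]
    exact mul_le_mul_of_nonneg_right (h _ hN le_rfl) (hg0 _)
  have h2 : ‖∑ n ∈ Icc 1 K, (∑ k ∈ Icc 1 n, f k) * (((g (n + 1) - g n : ℝ)) : ℂ)‖ ≤ B * g (K + 1) := by
    refine (norm_sum_le _ _).trans ?_
    have h3 : ∀ n ∈ Icc 1 K, ‖(∑ k ∈ Icc 1 n, f k) * (((g (n + 1) - g n : ℝ)) : ℂ)‖ ≤ B * (g (n + 1) - g n) := by
      intro n hn
      rw [mem_Icc] at hn
      have h4 := hg n
      rw [norm_mul, Complex.norm_real, Real.norm_eq_abs, abs_of_nonneg (by linarith)]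
      exact mul_le_mul_of_nonneg_right (h n hn.1 (by omega)) (by linarith)
    refine (sum_le_sum h3).trans ?_
    rw [← mul_sum]
    apply mul_le_mul_of_nonneg_left _ hB
    have h5 : ∀ K : ℕ, ∑ n ∈ Icc 1 K, (g (n + 1) - g n) = g (K + 1) - g 1 := by
      intro K
      induction K with
      | zero => simp
      | succ K ih => rw [sum_Icc_succ_top (by omega), ih]; ring
    rw [h5]
    linarith [hg0 1]
  refine (norm_sub_le _ _).trans ?_
  linarith

lemma ne1 (x : ℝ) : ‖e x‖ = 1 := by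
  unfold e
  exact Complex.norm_exp_ofReal_mul_I _

/-- the proper prime powers of a block -/
lemma npp (N N' : ℕ) (hN : 1 ≤ N) (hN' : N' ≤ 2 * N) :
    ∑ n ∈ (Ioc N N').filter (fun n => ¬ n.Prime), ArithmeticFunction.vonMangoldt n ≤ 16 * (N:ℝ) ^ (127/128:ℝ) := by
  have hN0 : (1:ℝ) ≤ N := by exact_mod_cast hN
  have h1 : ∑ n ∈ (Ioc N N').filter (fun n => ¬ n.Prime), ArithmeticFunction.vonMangoldt n ≤
      ∑ n ∈ (Ioc 0 ⌊(2 * (N:ℝ))⌋₊).filter (fun n => ¬ n.Prime), ArithmeticFunction.vonMangoldt n := by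
    apply sum_le_sum_of_subset_of_nonneg
    · intro n hn
      rw [mem_filter, mem_Ioc] at hn ⊢
      refine ⟨⟨by omega, ?_⟩, hn.2⟩
      rw [Nat.le_floor_iff (by positivity)]
      exact_mod_cast hn.1.2.trans hN'
    · intro n _ _
      exact ArithmeticFunction.vonMangoldt_nonneg
  rw [← Chebyshev.psi_sub_theta_eq_sum_not_prime] at h1
  refine h1.trans ((Chebyshev.psi_sub_theta_le (by linarith)).trans ?_)
  have h2 : Real.log (2 * N) ≤ (2 * N) ^ (1/4:ℝ) / (1/4) := Real.log_le_rpow_div (by positivity) (by norm_num)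
  have h3 : √(2 * (N:ℝ)) = (2 * (N:ℝ)) ^ (1/2:ℝ) := Real.sqrt_eq_rpow _
  have h4 : (2 * (N:ℝ)) ^ (1/2:ℝ) * (2 * (N:ℝ)) ^ (1/4:ℝ) = (2 * (N:ℝ)) ^ (3/4:ℝ) := by
    rw [← Real.rpow_add (by positivity)]
    norm_num
  have h5 : (2 * (N:ℝ)) ^ (3/4:ℝ) ≤ 2 * (N:ℝ) ^ (127/128:ℝ) := by
    rw [Real.mul_rpow (by norm_num) (by positivity)]
    apply mul_le_mul _ (Real.rpow_le_rpow_of_exponent_le hN0 (by norm_num)) (by positivity) (by norm_num)
    calc (2:ℝ) ^ (3/4:ℝ) ≤ (2:ℝ) ^ (1:ℝ) := Real.rpow_le_rpow_of_exponent_le (by norm_num) (by norm_num)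
      _ = 2 := by norm_num
  rw [h3]
  have h6 : 0 ≤ (2 * (N:ℝ)) ^ (1/2:ℝ) := by positivity
  calc 2 * (2 * (N:ℝ)) ^ (1/2:ℝ) * Real.log (2 * N) ≤ 2 * (2 * (N:ℝ)) ^ (1/2:ℝ) * ((2 * N) ^ (1/4:ℝ) / (1/4)) := by gcongr
    _ = 8 * ((2 * (N:ℝ)) ^ (1/2:ℝ) * (2 * (N:ℝ)) ^ (1/4:ℝ)) := by ring
    _ ≤ _ := by rw [h4]; linarith

/-- the primes -/
theorem wv_prime : ∃ A : ℝ, 0 < A ∧ ∀ α : ℝ, WV (fun n => (if n.Prime then 1 else 0) * e (α * n)) A := by
  obtain ⟨A, hA, h⟩ := wv_exists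
  refine ⟨(A + 16) * 2, by positivity, fun α => ⟨?_, ?_⟩⟩
  · intro n hn
    have hl : 0 ≤ Real.log n := Real.log_nonneg (by exact_mod_cast hn)
    rw [norm_mul, ne1, mul_one]
    split_ifs
    · rw [norm_one]; linarith
    · rw [norm_zero]; linarith
  · intro N N' hN hNN hN' θ hθ hθN
    set f : ℕ → ℂ := fun n => (if n.Prime then ((ArithmeticFunction.vonMangoldt n : ℝ) : ℂ) else 0) * e (α * n) * e (θ * √(n:ℝ)) with hf
    have hN1 : (1:ℝ) ≤ N := by exact_mod_cast hN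
    have hpart : ∀ m, N ≤ m → m ≤ N' → ‖∑ k ∈ Ioc N m, f k‖ ≤ (A + 16) * (N:ℝ) ^ (127/128:ℝ) := by
      intro m h1 h2
      have h3 := (h α).1.es N m hN h1 (h2.trans hN') θ hθ hθN
      have h4 := npp N m hN (h2.trans hN')
      have h5 : ∑ k ∈ Ioc N m, f k = ∑ n ∈ Ioc N m, ((ArithmeticFunction.vonMangoldt n : ℝ) : ℂ) * e (α * n) * e (θ * √(n:ℝ)) -
          ∑ n ∈ (Ioc N m).filter (fun n => ¬ n.Prime), ((ArithmeticFunction.vonMangoldt n : ℝ) : ℂ) * e (α * n) * e (θ * √(n:ℝ)) := by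
        rw [sum_filter, ← sum_sub_distrib]
        apply sum_congr rfl
        intro n _
        simp only [hf]
        split_ifs with h6
        · ring
        · ring
      have h7 : ‖∑ n ∈ (Ioc N m).filter (fun n => ¬ n.Prime), ((ArithmeticFunction.vonMangoldt n : ℝ) : ℂ) * e (α * n) * e (θ * √(n:ℝ))‖ ≤
          16 * (N:ℝ) ^ (127/128:ℝ) := by
        refine ((norm_sum_le _ _).trans (le_of_eq ?_)).trans h4
        apply sum_congr rfl
        intro n _
        rw [norm_mul, norm_mul, ne1, ne1, mul_one, mul_one, Complex.norm_real, Real.norm_eq_abs,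
          abs_of_nonneg ArithmeticFunction.vonMangoldt_nonneg]
      rw [h5]
      refine (norm_sub_le _ _).trans ?_
      linarith
    have hm := abel_dec f (fun n => 1 / Real.log n) (B := (A + 16) * (N:ℝ) ^ (127/128:ℝ)) (G := 2) N N' hNN ?_ ?_
      (by positivity) (by norm_num) hpart
    · refine le_trans (le_of_eq ?_) (hm.trans (le_of_eq (by ring)))
      congr 1
      apply sum_congr rfl
      intro n hn
      rw [mem_Ioc] at hn
      simp only [hf]
      split_ifs with h6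
      · rw [ArithmeticFunction.vonMangoldt_apply_prime h6]
        have h7 : Real.log n ≠ 0 := (Real.log_pos (by exact_mod_cast h6.one_lt)).ne'
        have h8 : ((Real.log n : ℝ) : ℂ) ≠ 0 := Complex.ofReal_ne_zero.2 h7
        rw [Complex.ofReal_div, Complex.ofReal_one, one_mul]
        field_simp
      · ring
    · intro n hn _
      have h1 : (1:ℝ) < n := by exact_mod_cast (by omega : 1 < n)
      have h2 : 0 < Real.log n := Real.log_pos h1
      apply one_div_le_one_div_of_le h2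
      apply Real.log_le_log (by linarith)
      push_cast
      linarith
    · intro n hn _
      have h1 : (2:ℝ) ≤ n := by exact_mod_cast (by omega : 2 ≤ n)
      have h2 : Real.log 2 ≤ Real.log n := Real.log_le_log (by norm_num) h1
      have h3 := Real.log_two_gt_d9
      refine ⟨by positivity, ?_⟩
      rw [div_le_iff₀ (by linarith)]
      linarith

/-- additive characters detect residue classes -/
lemma char_detect (q : ℕ) (hq : 1 ≤ q) (a n : ℕ) :
    (if n ≡ a [MOD q] then (1:ℂ) else 0) = (1 / (q:ℂ)) * ∑ j ∈ range q, e ((j:ℝ) / q * n) * e (-((j:ℝ) / q * a)) := by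
  have hq0 : (q:ℂ) ≠ 0 := by exact_mod_cast (by omega : q ≠ 0)
  have hqr : (q:ℝ) ≠ 0 := by exact_mod_cast (by omega : q ≠ 0)
  set z : ℂ := e (((n:ℝ) - a) / q) with hz
  have hterm : ∀ j : ℕ, e ((j:ℝ) / q * n) * e (-((j:ℝ) / q * a)) = z ^ j := by
    intro j
    rw [hz]
    unfold e
    rw [← Complex.exp_add, ← Complex.exp_nat_mul]
    congr 1
    push_cast
    field_simp
    ring
  simp only [hterm]
  have hzq : z ^ q = 1 := by
    rw [hz]
    unfold e
    rw [← Complex.exp_nat_mul]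
    rw [Complex.exp_eq_one_iff]
    refine ⟨(n:ℤ) - a, ?_⟩
    push_cast
    field_simp
  have hz1 : z = 1 ↔ n ≡ a [MOD q] := by
    rw [hz]
    unfold e
    rw [Complex.exp_eq_one_iff, ← Int.natCast_modEq_iff, Int.modEq_iff_dvd]
    constructor
    · rintro ⟨k, hk⟩
      refine ⟨-k, ?_⟩
      have hI : (2 * (Real.pi:ℂ) * Complex.I) ≠ 0 := Complex.two_pi_I_ne_zero
      have h2 : (((n:ℝ) - a) / q : ℝ) = (k : ℝ) := by
        have h3 : ((((n:ℝ) - a) / q : ℝ) : ℂ) = (k : ℂ) := by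
          apply mul_right_cancel₀ hI
          rw [← hk]
          push_cast
          ring
        exact_mod_cast h3
      rw [div_eq_iff hqr] at h2
      have h4 : (n:ℤ) - a = k * q := by exact_mod_cast h2
      rw [mul_neg]
      linarith
    · rintro ⟨k, hk⟩
      refine ⟨-k, ?_⟩
      have h4 : ((a:ℝ)) - n = q * k := by exact_mod_cast hk
      have h5 : (((n:ℝ) - a) / q : ℝ) = -(k:ℝ) := by
        rw [div_eq_iff hqr]
        linarith
      rw [h5]
      push_cast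
      ring
  split_ifs with h
  · rw [hz1.2 h]
    simp
    field_simp
  · have hne : z ≠ 1 := fun h' => h (hz1.1 h')
    have := mul_neg_geom_sum z q
    rw [hzq, sub_self] at this
    rcases mul_eq_zero.1 this with h5 | h5
    · exact absurd (sub_eq_zero.1 h5).symm hne
    · rw [h5, mul_zero]

/-- residue classes -/
theorem wv_mod {g : ℕ → ℂ} {A : ℝ} (h : ∀ α : ℝ, WV (fun n => g n * e (α * n)) A) (q : ℕ) (hq : 1 ≤ q) (a : ℕ)
    (α : ℝ) : WV (fun n => if n ≡ a [MOD q] then g n * e (α * n) else 0) A := by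
  refine ⟨?_, ?_⟩
  · intro n hn
    have h1 := (h α).bd n hn
    have hl : 0 ≤ Real.log n := Real.log_nonneg (by exact_mod_cast hn)
    split_ifs
    · exact h1
    · rw [norm_zero]; linarith
  · intro N N' hN hNN hN' θ hθ hθN
    have hq0 : (0:ℝ) < q := by exact_mod_cast hq
    have h1 : ∑ n ∈ Ioc N N', (if n ≡ a [MOD q] then g n * e (α * n) else 0) * e (θ * √(n:ℝ)) =
        (1 / (q:ℂ)) * ∑ j ∈ range q, e (-((j:ℝ) / q * a)) * ∑ n ∈ Ioc N N', (g n * e ((α + (j:ℝ) / q) * n)) * e (θ * √(n:ℝ)) := by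
      simp only [mul_sum]
      rw [sum_comm]
      apply sum_congr rfl
      intro n _
      have h2 := char_detect q hq a n
      have h3 : (if n ≡ a [MOD q] then g n * e (α * n) else 0) = g n * e (α * n) * (if n ≡ a [MOD q] then (1:ℂ) else 0) := by
        split_ifs <;> ring
      rw [h3, h2, mul_sum, mul_sum, sum_mul]
      apply sum_congr rfl
      intro j _
      have h4 : e ((α + (j:ℝ) / q) * n) = e (α * n) * e ((j:ℝ) / q * n) := by
        unfold e
        rw [← Complex.exp_add]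
        congr 1
        push_cast
        ring
      rw [h4]
      ring
    rw [h1, norm_mul]
    have h5 : ‖(1 / (q:ℂ))‖ = 1 / q := by
      rw [norm_div, norm_one]
      simp
    rw [h5]
    have h6 : ‖∑ j ∈ range q, e (-((j:ℝ) / q * a)) * ∑ n ∈ Ioc N N', (g n * e ((α + (j:ℝ) / q) * n)) * e (θ * √(n:ℝ))‖ ≤
        q * (A * (N:ℝ) ^ (127/128:ℝ)) := by
      refine (norm_sum_le _ _).trans ?_
      have h7 : ∀ j ∈ range q, ‖e (-((j:ℝ) / q * a)) * ∑ n ∈ Ioc N N', (g n * e ((α + (j:ℝ) / q) * n)) * e (θ * √(n:ℝ))‖ ≤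
          A * (N:ℝ) ^ (127/128:ℝ) := by
        intro j _
        rw [norm_mul, ne1, one_mul]
        exact (h (α + (j:ℝ) / q)).es N N' hN hNN hN' θ hθ hθN
      refine (sum_le_sum h7).trans (le_of_eq ?_)
      rw [sum_const, card_range, nsmul_eq_mul]
    calc 1 / (q:ℝ) * _ ≤ 1 / (q:ℝ) * (q * (A * (N:ℝ) ^ (127/128:ℝ))) := by gcongr
      _ = _ := by field_simp

/-- primes of a residue class and the Moebius function on a residue class -/
theorem wv_all : ∃ A : ℝ, 0 < A ∧ ∀ (q a : ℕ) (α : ℝ), 1 ≤ q →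
    WV (fun n => if n ≡ a [MOD q] then (if n.Prime then 1 else 0) * e (α * n) else 0) A ∧
    WV (fun n => if n ≡ a [MOD q] then (((ArithmeticFunction.moebius n : ℤ) : ℝ) : ℂ) * e (α * n) else 0) A := by
  obtain ⟨A₁, hA₁, h₁⟩ := wv_prime
  obtain ⟨A₂, hA₂, h₂⟩ := wv_exists
  refine ⟨A₁ + A₂, by positivity, fun q a α hq => ?_⟩
  have mono : ∀ (v : ℕ → ℂ) (x y : ℝ), x ≤ y → WV v x → WV v y := by
    intro v x y hxy hv
    refine ⟨hv.bd, fun N N' hN hNN hN' θ hθ hθN => (hv.es N N' hN hNN hN' θ hθ hθN).trans ?_⟩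
    apply mul_le_mul_of_nonneg_right hxy (by positivity)
  exact ⟨mono _ _ _ (by linarith) (wv_mod h₁ q hq a α),
    mono _ _ _ (by linarith) (wv_mod (fun α => (h₂ α).2) q hq a α)⟩

end Pool.Agent.N687.P
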