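import Mathlib
import Pool.Agent.N687.P.P1
import Pool.Agent.N687.P.P2

/-! The weighted mean and the weighted mean square. -/

set_option autoImplicit false

open Finset
open Pool.Agent.H383
open Pool.Agent.H383.Gen (Bd U)
open Pool.Agent.H452R2.Win Pool.Agent.H452R2.Om
open Pool.Agent.H469R2.NK
open Pool.Agent.W24.CP

namespace Pool.Agent.N687.P

variable {E : ℝ → ℝ} {a : ℕ → ℝ} {φ : ℝ} {w : ℝ → ℂ}

/-- a weighted sum of a cosine -/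
lemma cosb {v : ℕ → ℂ} {A : ℝ} (hv : WV v A) (N N' : ℕ) (hN : 1 ≤ N) (hNN' : N ≤ N') (hN' : N' ≤ 2 * N)
    {θ : ℝ} (hθ : θ ≠ 0) (hθN : |θ| + 1/|θ| ≤ 2 * (N:ℝ) ^ (1/8:ℝ)) (ψ : ℝ) :
    ‖∑ n ∈ Ioc N N', v n * ((Real.cos (2 * Real.pi * (θ * √(n:ℝ)) - ψ) : ℝ) : ℂ)‖ ≤ A * (N:ℝ) ^ (127/128:ℝ) := by
  have k1 := hv.es N N' hN hNN' hN' θ hθ hθN
  have k2 := hv.es N N' hN hNN' hN' (-θ) (neg_ne_zero.mpr hθ) (by rw [abs_neg]; exact hθN)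
  have n1 : ‖Complex.exp ((-ψ : ℝ) * Complex.I) / 2‖ = 1/2 := by
    rw [norm_div, Complex.norm_exp_ofReal_mul_I]; norm_num
  have n2 : ‖Complex.exp ((ψ : ℝ) * Complex.I) / 2‖ = 1/2 := by
    rw [norm_div, Complex.norm_exp_ofReal_mul_I]; norm_num
  have e1 : ∑ n ∈ Ioc N N', v n * ((Real.cos (2 * Real.pi * (θ * √(n:ℝ)) - ψ) : ℝ) : ℂ) =
      (Complex.exp ((-ψ : ℝ) * Complex.I) / 2) * (∑ n ∈ Ioc N N', v n * e (θ * √(n:ℝ))) +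
        (Complex.exp ((ψ : ℝ) * Complex.I) / 2) * (∑ n ∈ Ioc N N', v n * e ((-θ) * √(n:ℝ))) := by
    rw [mul_sum, mul_sum, ← sum_add_distrib]
    apply sum_congr rfl
    intro n _
    rw [cos_split]
    ring
  rw [e1]
  refine (norm_add_le _ _).trans ?_
  rw [norm_mul, norm_mul, n1, n2]
  linarith

/-- the diagonal of the square -/
noncomputable def VM (a : ℕ → ℝ) (M : ℕ) : ℝ := ∑ m ∈ Icc 1 (M^2), a m ^ 2 / 2

lemma U_sq (a : ℕ → ℝ) (φ R : ℝ) (M : ℕ) : (U a φ R M)^2 - VM a M =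
    ∑ m ∈ Icc 1 (M^2), ∑ m' ∈ Icc 1 (M^2), (a m * a m' / 2) *
      ((if m = m' then 0 else Real.cos (2 * Real.pi * ((√(m:ℝ) - √(m':ℝ)) * R) - 0)) +
        Real.cos (2 * Real.pi * ((√(m:ℝ) + √(m':ℝ)) * R) - 2 * φ)) := by
  have h1 : (U a φ R M)^2 = ∑ m ∈ Icc 1 (M^2), ∑ m' ∈ Icc 1 (M^2), (a m * a m' / 2) *
      (Real.cos (2 * Real.pi * ((√(m:ℝ) - √(m':ℝ)) * R)) + Real.cos (2 * Real.pi * ((√(m:ℝ) + √(m':ℝ)) * R) - 2 * φ)) := by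
    unfold U
    rw [sq, sum_mul_sum]
    apply sum_congr rfl; intro m _
    apply sum_congr rfl; intro m' _
    have h2 : 2 * Real.pi * ((√(m:ℝ) - √(m':ℝ)) * R) = (2 * Real.pi * (R * √(m:ℝ)) - φ) - (2 * Real.pi * (R * √(m':ℝ)) - φ) := by ring
    have h3 : 2 * Real.pi * ((√(m:ℝ) + √(m':ℝ)) * R) - 2 * φ = (2 * Real.pi * (R * √(m:ℝ)) - φ) + (2 * Real.pi * (R * √(m':ℝ)) - φ) := by ring
    rw [h2, h3]
    generalize (2 * Real.pi * (R * √(m:ℝ)) - φ) = x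
    generalize (2 * Real.pi * (R * √(m':ℝ)) - φ) = y
    rw [Real.cos_sub x y, Real.cos_add x y]
    ring
  have h4 : VM a M = ∑ m ∈ Icc 1 (M^2), ∑ m' ∈ Icc 1 (M^2), (a m * a m' / 2) * (if m = m' then 1 else 0) := by
    unfold VM
    apply sum_congr rfl; intro m hm
    rw [sum_eq_single m]
    · rw [if_pos rfl]; ring
    · intro m' _ hne
      rw [if_neg (fun h => hne h.symm)]; ring
    · intro h; exact absurd hm h
  rw [h1, h4, ← sum_sub_distrib]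
  apply sum_congr rfl; intro m _
  rw [← sum_sub_distrib]
  apply sum_congr rfl; intro m' _
  split_ifs with h
  · subst h
    rw [sub_self, zero_mul, mul_zero, Real.cos_zero]
    ring
  · rw [sub_zero]; ring

lemma U_sq_block {v : ℕ → ℂ} {A Ca : ℝ} (hv : WV v A) (hA : 0 < A) (hCa0 : 0 < Ca) (hCa : ∀ m : ℕ, 1 ≤ m → |a m| ≤ Ca)
    {c : ℝ} (hc : 0 < c) (N N' : ℕ) (hN : 1 ≤ N) (hNN' : N ≤ N') (hN' : N' ≤ 2 * N) (M : ℕ) (hM1 : 1 ≤ M)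
    (hM : (c + 1/c) * M ≤ (N:ℝ) ^ (1/8:ℝ)) :
    ‖∑ n ∈ Ioc N N', v n * (((U a φ (c * √(n:ℝ)) M)^2 - VM a M : ℝ) : ℂ)‖ ≤ (M:ℝ)^4 * (Ca^2 * (A * (N:ℝ) ^ (127/128:ℝ))) := by
  have hM1r : (1:ℝ) ≤ M := by exact_mod_cast hM1
  have hA' : 0 ≤ A * (N:ℝ) ^ (127/128:ℝ) := by positivity
  have e1 : ∑ n ∈ Ioc N N', v n * (((U a φ (c * √(n:ℝ)) M)^2 - VM a M : ℝ) : ℂ) =
      ∑ m ∈ Icc 1 (M^2), ∑ m' ∈ Icc 1 (M^2), ((a m * a m' / 2 : ℝ) : ℂ) *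
        ((if m = m' then 0 else ∑ n ∈ Ioc N N', v n * ((Real.cos (2 * Real.pi * (((√(m:ℝ) - √(m':ℝ)) * c) * √(n:ℝ)) - 0) : ℝ) : ℂ)) +
        ∑ n ∈ Ioc N N', v n * ((Real.cos (2 * Real.pi * (((√(m:ℝ) + √(m':ℝ)) * c) * √(n:ℝ)) - 2 * φ) : ℝ) : ℂ)) := by
    have e2 : ∀ n ∈ Ioc N N', v n * (((U a φ (c * √(n:ℝ)) M)^2 - VM a M : ℝ) : ℂ) =
        ∑ m ∈ Icc 1 (M^2), ∑ m' ∈ Icc 1 (M^2), ((a m * a m' / 2 : ℝ) : ℂ) *
        ((if m = m' then 0 else v n * ((Real.cos (2 * Real.pi * (((√(m:ℝ) - √(m':ℝ)) * c) * √(n:ℝ)) - 0) : ℝ) : ℂ)) +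
          v n * ((Real.cos (2 * Real.pi * (((√(m:ℝ) + √(m':ℝ)) * c) * √(n:ℝ)) - 2 * φ) : ℝ) : ℂ)) := by
      intro n _
      rw [U_sq, Complex.ofReal_sum, mul_sum]
      apply sum_congr rfl; intro m _
      rw [Complex.ofReal_sum, mul_sum]
      apply sum_congr rfl; intro m' _
      have g1 : (√(m:ℝ) - √(m':ℝ)) * (c * √(n:ℝ)) = ((√(m:ℝ) - √(m':ℝ)) * c) * √(n:ℝ) := by ring
      have g2 : (√(m:ℝ) + √(m':ℝ)) * (c * √(n:ℝ)) = ((√(m:ℝ) + √(m':ℝ)) * c) * √(n:ℝ) := by ring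
      rw [g1, g2]
      split_ifs with h
      · rw [Complex.ofReal_mul, zero_add, zero_add]; ring
      · rw [Complex.ofReal_mul, Complex.ofReal_add]; ring
    rw [sum_congr rfl e2, sum_comm]
    apply sum_congr rfl; intro m _
    rw [sum_comm]
    apply sum_congr rfl; intro m' _
    rw [← mul_sum, sum_add_distrib]
    split_ifs with h
    · simp
    · rfl
  rw [e1]
  have hterm : ∀ m ∈ Icc 1 (M^2), ∀ m' ∈ Icc 1 (M^2), ‖((a m * a m' / 2 : ℝ) : ℂ) *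
        ((if m = m' then 0 else ∑ n ∈ Ioc N N', v n * ((Real.cos (2 * Real.pi * (((√(m:ℝ) - √(m':ℝ)) * c) * √(n:ℝ)) - 0) : ℝ) : ℂ)) +
        ∑ n ∈ Ioc N N', v n * ((Real.cos (2 * Real.pi * (((√(m:ℝ) + √(m':ℝ)) * c) * √(n:ℝ)) - 2 * φ) : ℝ) : ℂ))‖ ≤
      Ca^2 * (A * (N:ℝ) ^ (127/128:ℝ)) := by
    intro m hm m' hm'
    rw [mem_Icc] at hm hm'
    have s1 : ∀ k : ℕ, 1 ≤ k → k ≤ M^2 → 1 ≤ √(k:ℝ) ∧ √(k:ℝ) ≤ M := by
      intro k hk hk2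
      have hk1 : (1:ℝ) ≤ k := by exact_mod_cast hk
      refine ⟨by rw [Real.one_le_sqrt]; exact hk1, ?_⟩
      rw [Real.sqrt_le_left (by positivity)]; exact_mod_cast hk2
    obtain ⟨p1, p2⟩ := s1 m hm.1 hm.2
    obtain ⟨p3, p4⟩ := s1 m' hm'.1 hm'.2
    -- plus
    have hplus0 : 0 < (√(m:ℝ) + √(m':ℝ)) * c := by positivity
    have hplus : |(√(m:ℝ) + √(m':ℝ)) * c| + 1/|(√(m:ℝ) + √(m':ℝ)) * c| ≤ 2 * (N:ℝ) ^ (1/8:ℝ) := by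
      rw [abs_of_pos hplus0]
      have h1 : (√(m:ℝ) + √(m':ℝ)) * c ≤ 2 * (c * M) := by nlinarith
      have h2 : 1/((√(m:ℝ) + √(m':ℝ)) * c) ≤ 1/c * M := by
        rw [div_le_iff₀ hplus0]
        have : 1/c * M * ((√(m:ℝ) + √(m':ℝ)) * c) = M * (√(m:ℝ) + √(m':ℝ)) := by field_simp
        rw [this]
        nlinarith
      have h3 : 0 ≤ 1/c * M := by positivity
      nlinarith
    have kp := cosb hv N N' hN hNN' hN' hplus0.ne' hplus (2 * φ)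
    -- minus
    have km : ‖(if m = m' then (0:ℂ) else ∑ n ∈ Ioc N N', v n * ((Real.cos (2 * Real.pi * (((√(m:ℝ) - √(m':ℝ)) * c) * √(n:ℝ)) - 0) : ℝ) : ℂ))‖ ≤
        A * (N:ℝ) ^ (127/128:ℝ) := by
      split_ifs with h
      · rw [norm_zero]; exact hA'
      · have q1 : √(m:ℝ) * √(m:ℝ) = m := Real.mul_self_sqrt (Nat.cast_nonneg m)
        have q2 : √(m':ℝ) * √(m':ℝ) = m' := Real.mul_self_sqrt (Nat.cast_nonneg m')
        have h1 : (1:ℝ) ≤ |(m:ℝ) - m'| := by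
          have h2 : ((m:ℤ) - m') ≠ 0 := by omega
          have h3 : (1:ℤ) ≤ |(m:ℤ) - m'| := Int.one_le_abs h2
          have h4 : ((1:ℤ):ℝ) ≤ ((|(m:ℤ) - m'| : ℤ) : ℝ) := by exact_mod_cast h3
          push_cast at h4
          exact h4
        have h5 : (m:ℝ) - m' = (√(m:ℝ) - √(m':ℝ)) * (√(m:ℝ) + √(m':ℝ)) := by nlinarith
        have h6 : 1 ≤ |√(m:ℝ) - √(m':ℝ)| * (2 * M) := by
          rw [h5, abs_mul, abs_of_pos (by positivity : 0 < √(m:ℝ) + √(m':ℝ))] at h1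
          refine h1.trans ?_
          apply mul_le_mul_of_nonneg_left _ (abs_nonneg _)
          linarith
        have h7 : 0 < |√(m:ℝ) - √(m':ℝ)| := by
          by_contra hcon
          have : |√(m:ℝ) - √(m':ℝ)| = 0 := le_antisymm (not_lt.1 hcon) (abs_nonneg _)
          rw [this] at h6
          norm_num at h6
        have h8 : |√(m:ℝ) - √(m':ℝ)| ≤ M := by
          rw [abs_le]
          constructor <;> linarith
        have hne : (√(m:ℝ) - √(m':ℝ)) * c ≠ 0 := mul_ne_zero (abs_pos.1 h7) hc.ne'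
        apply cosb hv N N' hN hNN' hN' hne
        rw [abs_mul, abs_of_pos hc]
        have h9 : |√(m:ℝ) - √(m':ℝ)| * c ≤ c * M := by nlinarith
        have h10 : 1/(|√(m:ℝ) - √(m':ℝ)| * c) ≤ 2 * (1/c * M) := by
          rw [div_le_iff₀ (by positivity)]
          have : 2 * (1/c * M) * (|√(m:ℝ) - √(m':ℝ)| * c) = |√(m:ℝ) - √(m':ℝ)| * (2 * M) := by field_simp
          rw [this]
          exact h6
        have h11 : 0 ≤ c * M := by positivity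
        nlinarith
    rw [norm_mul, Complex.norm_real, Real.norm_eq_abs, abs_div, abs_mul, abs_of_pos (by norm_num : (0:ℝ) < 2)]
    have h12 : |a m| * |a m'| ≤ Ca * Ca := mul_le_mul (hCa m hm.1) (hCa m' hm'.1) (abs_nonneg _) hCa0.le
    have h13 := (norm_add_le _ _).trans (add_le_add km kp)
    calc |a m| * |a m'| / 2 * _ ≤ (Ca * Ca) / 2 * (A * (N:ℝ) ^ (127/128:ℝ) + A * (N:ℝ) ^ (127/128:ℝ)) := by
          apply mul_le_mul (by linarith) h13 (norm_nonneg _) (by positivity)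
      _ = _ := by ring
  refine (norm_sum_le _ _).trans ?_
  have hrow : ∀ m ∈ Icc 1 (M^2), ‖∑ m' ∈ Icc 1 (M^2), ((a m * a m' / 2 : ℝ) : ℂ) *
        ((if m = m' then 0 else ∑ n ∈ Ioc N N', v n * ((Real.cos (2 * Real.pi * (((√(m:ℝ) - √(m':ℝ)) * c) * √(n:ℝ)) - 0) : ℝ) : ℂ)) +
        ∑ n ∈ Ioc N N', v n * ((Real.cos (2 * Real.pi * (((√(m:ℝ) + √(m':ℝ)) * c) * √(n:ℝ)) - 2 * φ) : ℝ) : ℂ))‖ ≤
      (M:ℝ)^2 * (Ca^2 * (A * (N:ℝ) ^ (127/128:ℝ))) := by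
    intro m hm
    refine (norm_sum_le _ _).trans ((sum_le_sum (hterm m hm)).trans (le_of_eq ?_))
    rw [sum_const, Nat.card_Icc, nsmul_eq_mul]
    push_cast
    ring
  refine (sum_le_sum hrow).trans (le_of_eq ?_)
  rw [sum_const, Nat.card_Icc, nsmul_eq_mul]
  push_cast
  ring

/-- the variance -/
noncomputable def VV (a : ℕ → ℝ) : ℝ := ∑' m, a m ^ 2 / 2

lemma sq_summable (ha : Bdw a) : Summable (fun m => a m ^ 2 / 2) := by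
  obtain ⟨C, hC, h⟩ := ha (1/8) (by norm_num)
  have h1 : Summable (fun m : ℕ => C^2 / 2 * (m:ℝ) ^ (-(5/4):ℝ)) :=
    (Real.summable_nat_rpow.2 (by norm_num)).mul_left _
  rw [← summable_nat_add_iff 1] at h1 ⊢
  refine Summable.of_nonneg_of_le (fun m => by positivity) (fun m => ?_) h1
  have h2 := h (m + 1) (by omega)
  have hm : (0:ℝ) < ((m + 1 : ℕ):ℝ) := by positivity
  have h3 : a (m + 1) ^ 2 ≤ (C * ((m + 1 : ℕ):ℝ) ^ (-(3/4) + 1/8:ℝ))^2 := by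
    rw [← sq_abs]
    exact pow_le_pow_left₀ (abs_nonneg _) h2 2
  rw [mul_pow, ← Real.rpow_natCast (((m + 1 : ℕ):ℝ) ^ (-(3/4) + 1/8:ℝ)) 2, ← Real.rpow_mul hm.le] at h3
  norm_num at h3 ⊢
  linarith

lemma VV_tail (ha : Bdw a) (ha0 : a 0 = 0) : ∃ C : ℝ, 0 < C ∧ ∀ M : ℕ, 1 ≤ M → |VV a - VM a M| ≤ C * (M:ℝ) ^ (-(1/4):ℝ) := by
  obtain ⟨C, hC, h⟩ := ha (1/8) (by norm_num)
  set S : ℝ := ∑' m : ℕ, (m:ℝ) ^ (-(9/8):ℝ) with hS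
  have hSs : Summable (fun m : ℕ => (m:ℝ) ^ (-(9/8):ℝ)) := Real.summable_nat_rpow.2 (by norm_num)
  have hS0 : 0 ≤ S := tsum_nonneg (fun m => by positivity)
  refine ⟨C^2 * S + 1, by positivity, ?_⟩
  intro M hM
  have hMr : (1:ℝ) ≤ M := by exact_mod_cast hM
  have hsum := sq_summable ha
  have h1 : VV a = VM a M + ∑' m : ℕ, a (m + (M^2 + 1)) ^ 2 / 2 := by
    unfold VV VM
    rw [← hsum.sum_add_tsum_nat_add (M^2 + 1)]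
    congr 1
    rw [range_eq_Ico, sum_eq_sum_Ico_succ_bot (by omega : 0 < M^2 + 1), ha0]
    norm_num
    apply sum_congr _ fun _ _ => rfl
    ext m
    simp only [mem_Ico, mem_Icc]
    omega
  have h2 : ∀ m : ℕ, a (m + (M^2 + 1)) ^ 2 / 2 ≤ C^2 * (M:ℝ) ^ (-(1/4):ℝ) * ((m + (M^2 + 1) : ℕ):ℝ) ^ (-(9/8):ℝ) := by
    intro m
    have h3 := h (m + (M^2 + 1)) (by omega)
    have hm : (0:ℝ) < ((m + (M^2 + 1) : ℕ):ℝ) := by positivity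
    have h4 : a (m + (M^2 + 1)) ^ 2 ≤ (C * ((m + (M^2 + 1) : ℕ):ℝ) ^ (-(3/4) + 1/8:ℝ))^2 := by
      rw [← sq_abs]
      exact pow_le_pow_left₀ (abs_nonneg _) h3 2
    rw [mul_pow, ← Real.rpow_natCast (((m + (M^2 + 1) : ℕ):ℝ) ^ (-(3/4) + 1/8:ℝ)) 2, ← Real.rpow_mul hm.le] at h4
    have h5 : ((m + (M^2 + 1) : ℕ):ℝ) ^ ((-(3/4) + 1/8:ℝ) * ((2:ℕ):ℝ)) =
        ((m + (M^2 + 1) : ℕ):ℝ) ^ (-(1/8):ℝ) * ((m + (M^2 + 1) : ℕ):ℝ) ^ (-(9/8):ℝ) := by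
      rw [← Real.rpow_add hm]
      norm_num
    have h6 : ((m + (M^2 + 1) : ℕ):ℝ) ^ (-(1/8):ℝ) ≤ (M:ℝ) ^ (-(1/4):ℝ) := by
      have h7 : (M:ℝ)^2 ≤ ((m + (M^2 + 1) : ℕ):ℝ) := by
        push_cast
        have : (0:ℝ) ≤ m := Nat.cast_nonneg m
        linarith
      calc ((m + (M^2 + 1) : ℕ):ℝ) ^ (-(1/8):ℝ) ≤ ((M:ℝ)^2) ^ (-(1/8):ℝ) :=
            Real.rpow_le_rpow_of_nonpos (by positivity) h7 (by norm_num)
        _ = (M:ℝ) ^ (-(1/4):ℝ) := by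
            rw [← Real.rpow_natCast (M:ℝ) 2, ← Real.rpow_mul (by linarith)]
            norm_num
    rw [h5] at h4
    have h8 : 0 ≤ ((m + (M^2 + 1) : ℕ):ℝ) ^ (-(9/8):ℝ) := by positivity
    have h9 : C^2 * (((m + (M^2 + 1) : ℕ):ℝ) ^ (-(1/8):ℝ) * ((m + (M^2 + 1) : ℕ):ℝ) ^ (-(9/8):ℝ)) ≤
        C^2 * ((M:ℝ) ^ (-(1/4):ℝ) * ((m + (M^2 + 1) : ℕ):ℝ) ^ (-(9/8):ℝ)) := by gcongr
    have h10 : 0 ≤ a (m + (M^2 + 1)) ^ 2 := sq_nonneg _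
    linarith
  have h11 : 0 ≤ ∑' m : ℕ, a (m + (M^2 + 1)) ^ 2 / 2 := tsum_nonneg (fun m => by positivity)
  have h12 : ∑' m : ℕ, a (m + (M^2 + 1)) ^ 2 / 2 ≤ C^2 * (M:ℝ) ^ (-(1/4):ℝ) * S := by
    have hs2 : Summable (fun m : ℕ => ((m + (M^2 + 1) : ℕ):ℝ) ^ (-(9/8):ℝ)) := (summable_nat_add_iff (M^2 + 1)).2 hSs
    have hs1 : Summable (fun m : ℕ => a (m + (M^2 + 1)) ^ 2 / 2) := (summable_nat_add_iff (M^2 + 1)).2 hsum
    refine (hs1.tsum_le_tsum h2 (hs2.mul_left _)).trans ?_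
    rw [tsum_mul_left]
    apply mul_le_mul_of_nonneg_left _ (by positivity)
    rw [hS, ← hSs.sum_add_tsum_nat_add (M^2 + 1)]
    have : 0 ≤ ∑ i ∈ range (M^2 + 1), (i:ℝ) ^ (-(9/8):ℝ) := sum_nonneg (fun i _ => by positivity)
    linarith
  rw [h1, add_sub_cancel_left, abs_of_nonneg h11]
  have : 0 ≤ (M:ℝ) ^ (-(1/4):ℝ) := by positivity
  nlinarith

end Pool.Agent.N687.P
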