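import Mathlib
import Pool.Agent.N687.P.P3

/-! Blocks and initial segments. -/

set_option autoImplicit false

open Finset
open Pool.Agent.H383
open Pool.Agent.H383.Gen (Bd U)
open Pool.Agent.H452R2.Win Pool.Agent.H452R2.Om
open Pool.Agent.H469R2.NK
open Pool.Agent.W24.CP

namespace Pool.Agent.N687.P

variable {E : ℝ → ℝ} {a : ℕ → ℝ} {φ : ℝ} {w : ℝ → ℂ}

/-- the block bound for the square -/
theorem block_sq (ha : Bdw a) (ha0 : a 0 = 0) (hw : GW.Wt w) {κ₁ κ₂ : ℝ} (hS : SandW E a φ w κ₁ κ₂) {c : ℝ} (hc : 0 < c)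
    {A : ℝ} (hA : 0 < A) :
    ∃ δ : ℝ, 0 < δ ∧ δ ≤ 1/2 ∧ ∃ C : ℝ, 0 < C ∧ ∀ v : ℕ → ℂ, WV v A → ∀ N N' : ℕ, 1 ≤ N → N ≤ N' → N' ≤ 2 * N →
      ‖∑ n ∈ Ioc N N', v n * (((E (c * √(n:ℝ)))^2 - VV a : ℝ) : ℂ)‖ ≤ C * (N:ℝ) ^ (1 - δ) := by
  obtain ⟨δ, hδ0, hδ1, C, hC, N2, happ⟩ := appr ha ha0 hw hS hc
  obtain ⟨Ca, hCa0, hCa⟩ := a_sqrt ha.Bd
  obtain ⟨C', hC', htail⟩ := VV_tail ha ha0
  set B0 : ℝ := ∑ n ∈ Ioc 0 (2 * N2), (1 + Real.log n) * |(E (c * √(n:ℝ)))^2 - VV a| with hB0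
  have hB00 : 0 ≤ B0 := sum_nonneg fun n hn => by
    rw [mem_Ioc] at hn
    have : 0 ≤ Real.log n := Real.log_nonneg (by exact_mod_cast hn.1)
    positivity
  -- the constant for the logarithm
  set CL : ℝ := 1 + 4 / δ with hCL
  have hCL0 : 0 < CL := by positivity
  have hlogb : ∀ N : ℕ, 1 ≤ N → 1 + Real.log (2 * N) ≤ CL * (N:ℝ) ^ δ := by
    intro N hN
    have hN0 : (1:ℝ) ≤ N := by exact_mod_cast hN
    have h1 : Real.log (2 * N) ≤ (2 * N) ^ δ / δ := Real.log_le_rpow_div (by positivity) hδ0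
    have h2 : (2 * (N:ℝ)) ^ δ ≤ 2 * (N:ℝ) ^ δ := by
      rw [Real.mul_rpow (by norm_num) (by positivity)]
      apply mul_le_mul_of_nonneg_right _ (by positivity)
      calc (2:ℝ) ^ δ ≤ (2:ℝ) ^ (1:ℝ) := Real.rpow_le_rpow_of_exponent_le (by norm_num) (by linarith)
        _ = 2 := by norm_num
    have h3 : 1 ≤ (N:ℝ) ^ δ := Real.one_le_rpow hN0 hδ0.le
    have h4 : (2 * (N:ℝ)) ^ δ / δ ≤ 2 * (N:ℝ) ^ δ / δ := div_le_div_of_nonneg_right h2 hδ0.le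
    have h5 : 2 * (N:ℝ) ^ δ / δ = (2/δ) * (N:ℝ) ^ δ := by ring
    have h6 : (2/δ) * (N:ℝ) ^ δ ≤ (4/δ) * (N:ℝ) ^ δ := by
      apply mul_le_mul_of_nonneg_right _ (by positivity)
      apply div_le_div_of_nonneg_right (by norm_num) hδ0.le
    rw [hCL, add_mul, one_mul]
    linarith
  refine ⟨δ, hδ0, by linarith, CL * (6 * C) + Ca^2 * A + CL * (2 * C') + B0, by positivity, ?_⟩
  intro v hv N N' hN hNN' hN'
  have hN0 : (1:ℝ) ≤ N := by exact_mod_cast hN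
  have hNpos : (0:ℝ) < N := by linarith
  have hpow1 : 1 ≤ (N:ℝ) ^ (1 - δ) := Real.one_le_rpow hN0 (by linarith)
  by_cases hbig : N2 ≤ N
  swap
  · -- small N
    push Not at hbig
    have h1 : ‖∑ n ∈ Ioc N N', v n * (((E (c * √(n:ℝ)))^2 - VV a : ℝ) : ℂ)‖ ≤ B0 := by
      refine (norm_sum_le _ _).trans ?_
      calc ∑ n ∈ Ioc N N', ‖v n * (((E (c * √(n:ℝ)))^2 - VV a : ℝ) : ℂ)‖ ≤
            ∑ n ∈ Ioc N N', (1 + Real.log n) * |(E (c * √(n:ℝ)))^2 - VV a| := by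
            apply sum_le_sum; intro n hn
            rw [mem_Ioc] at hn
            rw [norm_mul, Complex.norm_real, Real.norm_eq_abs]
            exact mul_le_mul_of_nonneg_right (hv.bd n (by omega)) (abs_nonneg _)
        _ ≤ B0 := by
            apply sum_le_sum_of_subset_of_nonneg
            · intro n hn
              rw [mem_Ioc] at hn ⊢
              omega
            · intro n hn _
              rw [mem_Ioc] at hn
              have : 0 ≤ Real.log n := Real.log_nonneg (by exact_mod_cast hn.1)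
              positivity
    have h2 : B0 ≤ B0 * (N:ℝ) ^ (1 - δ) := le_mul_of_one_le_right hB00 hpow1
    have h3 : 0 ≤ (CL * (6 * C) + Ca^2 * A + CL * (2 * C')) * (N:ℝ) ^ (1 - δ) := by positivity
    have h4 : (CL * (6 * C) + Ca^2 * A + CL * (2 * C') + B0) * (N:ℝ) ^ (1 - δ) =
      (CL * (6 * C) + Ca^2 * A + CL * (2 * C')) * (N:ℝ) ^ (1 - δ) + B0 * (N:ℝ) ^ (1 - δ) := by ring
    linarith
  · obtain ⟨M, hM1, huM, hMu, hm8, hN'b⟩ := happ N hbig hN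
    obtain ⟨hap, hms⟩ := hN'b N' hN'
    have hM1r : (1:ℝ) ≤ M := by exact_mod_cast hM1
    set L : ℝ := 1 + Real.log (2 * N) with hL
    have hL1 : 1 ≤ L := by
      have : 0 ≤ Real.log (2 * N) := Real.log_nonneg (by linarith)
      linarith
    have hLb : L ≤ CL * (N:ℝ) ^ δ := hlogb N hN
    have hvL : ∀ n ∈ Ioc N N', ‖v n‖ ≤ L := by
      intro n hn
      rw [mem_Ioc] at hn
      refine (hv.bd n (by omega)).trans ?_
      have h1 : Real.log n ≤ Real.log (2 * N) := by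
        apply Real.log_le_log (by exact_mod_cast (by omega : 0 < n))
        exact_mod_cast hn.2.trans hN'
      linarith
    have hsplit : ∑ n ∈ Ioc N N', v n * (((E (c * √(n:ℝ)))^2 - VV a : ℝ) : ℂ) =
        ∑ n ∈ Ioc N N', v n * (((E (c * √(n:ℝ)) - U a φ (c * √(n:ℝ)) M) * (E (c * √(n:ℝ)) + U a φ (c * √(n:ℝ)) M) : ℝ) : ℂ) +
        ∑ n ∈ Ioc N N', v n * (((U a φ (c * √(n:ℝ)) M)^2 - VM a M : ℝ) : ℂ) +
        ∑ n ∈ Ioc N N', v n * ((VM a M - VV a : ℝ) : ℂ) := by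
      rw [← sum_add_distrib, ← sum_add_distrib]
      apply sum_congr rfl; intro n _
      push_cast
      ring
    set p : ℝ := (N:ℝ) ^ (2 * δ) with hp
    have hp0 : 0 < p := by positivity
    have hpinv : (N:ℝ) ^ (-(2 * δ)) = p⁻¹ := by rw [hp, Real.rpow_neg hNpos.le]
    have hp4 : (N:ℝ) ^ (-(4 * δ)) = p⁻¹ * p⁻¹ := by
      rw [← hpinv, ← Real.rpow_add hNpos]; congr 1; ring
    have hp1 : 1 ≤ p := Real.one_le_rpow hN0 (by positivity)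
    have hpi1 : p⁻¹ ≤ 1 := inv_le_one_of_one_le₀ hp1
    have hpi0 : 0 < p⁻¹ := by positivity
    have hpδ : (N:ℝ) ^ δ * (N * p⁻¹) = (N:ℝ) ^ (1 - δ) := by
      rw [← hpinv]
      nth_rewrite 2 [← Real.rpow_one (N:ℝ)]
      rw [← Real.rpow_add hNpos, ← Real.rpow_add hNpos]
      congr 1; ring
    -- first part
    have k1 : ‖∑ n ∈ Ioc N N', v n * (((E (c * √(n:ℝ)) - U a φ (c * √(n:ℝ)) M) * (E (c * √(n:ℝ)) + U a φ (c * √(n:ℝ)) M) : ℝ) : ℂ)‖ ≤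
        CL * (6 * C) * (N:ℝ) ^ (1 - δ) := by
      refine (norm_sum_le _ _).trans ?_
      have hpt : ∀ n ∈ Ioc N N', ‖v n * (((E (c * √(n:ℝ)) - U a φ (c * √(n:ℝ)) M) * (E (c * √(n:ℝ)) + U a φ (c * √(n:ℝ)) M) : ℝ) : ℂ)‖ ≤
          L * (1/2 * (p * (E (c * √(n:ℝ)) - U a φ (c * √(n:ℝ)) M)^2 +
            p⁻¹ * (8 * (E (c * √(n:ℝ)))^2 + 2 * (E (c * √(n:ℝ)) - U a φ (c * √(n:ℝ)) M)^2))) := by
        intro n hn
        rw [norm_mul, Complex.norm_real, Real.norm_eq_abs]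
        refine mul_le_mul (hvL n hn) ?_ (abs_nonneg _) (by linarith)
        generalize E (c * √(n:ℝ)) = x
        generalize U a φ (c * √(n:ℝ)) M = y
        have q1 : (x + y)^2 ≤ 8 * x^2 + 2 * (x - y)^2 := by nlinarith [sq_nonneg (3 * x - y)]
        have q2 : |(x - y) * (x + y)| ≤ 1/2 * (p * (x - y)^2 + p⁻¹ * (x + y)^2) := by
          have r1 : 0 ≤ p * (|x - y| - p⁻¹ * |x + y|)^2 := by positivity
          have r2 : p * (|x - y| - p⁻¹ * |x + y|)^2 = p * |x - y|^2 - 2 * (p * p⁻¹) * (|x - y| * |x + y|) + (p * p⁻¹) * (p⁻¹ * |x + y|^2) := by ring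
          rw [mul_inv_cancel₀ hp0.ne', sq_abs, sq_abs] at r2
          rw [abs_mul]
          linarith
        have q3 : p⁻¹ * (x + y)^2 ≤ p⁻¹ * (8 * x^2 + 2 * (x - y)^2) := mul_le_mul_of_nonneg_left q1 hpi0.le
        linarith
      refine (sum_le_sum hpt).trans ?_
      rw [← mul_sum, ← mul_sum, sum_add_distrib, ← mul_sum, ← mul_sum, sum_add_distrib, ← mul_sum, ← mul_sum]
      set S1 := ∑ n ∈ Ioc N N', (E (c * √(n:ℝ)) - U a φ (c * √(n:ℝ)) M)^2 with hS1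
      set S2 := ∑ n ∈ Ioc N N', (E (c * √(n:ℝ)))^2 with hS2
      have hS10 : 0 ≤ S1 := sum_nonneg fun _ _ => sq_nonneg _
      rw [hp4] at hap
      have t1 : p * S1 ≤ C * (N * p⁻¹) := by
        calc p * S1 ≤ p * (C * (N * (p⁻¹ * p⁻¹))) := mul_le_mul_of_nonneg_left hap hp0.le
          _ = (p * p⁻¹) * (C * (N * p⁻¹)) := by ring
          _ = _ := by rw [mul_inv_cancel₀ hp0.ne', one_mul]
      have t2 : S1 ≤ C * N := by
        refine hap.trans ?_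
        have : N * (p⁻¹ * p⁻¹) ≤ N := by
          have : p⁻¹ * p⁻¹ ≤ 1 := by nlinarith
          nlinarith
        exact mul_le_mul_of_nonneg_left this hC.le
      have t3 : p⁻¹ * (8 * S2 + 2 * S1) ≤ p⁻¹ * (10 * (C * N)) := by
        apply mul_le_mul_of_nonneg_left _ hpi0.le
        linarith
      have t4 : 1/2 * (p * S1 + p⁻¹ * (8 * S2 + 2 * S1)) ≤ 6 * C * (N * p⁻¹) := by
        have : p⁻¹ * (10 * (C * N)) = 10 * (C * (N * p⁻¹)) := by ring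
        have : 0 ≤ C * (N * p⁻¹) := by positivity
        linarith
      calc L * (1/2 * (p * S1 + p⁻¹ * (8 * S2 + 2 * S1))) ≤ (CL * (N:ℝ) ^ δ) * (6 * C * (N * p⁻¹)) := by
            apply mul_le_mul hLb t4 _ (by positivity)
            have : 0 ≤ S2 := sum_nonneg fun _ _ => sq_nonneg _
            positivity
        _ = CL * (6 * C) * ((N:ℝ) ^ δ * (N * p⁻¹)) := by ring
        _ = _ := by rw [hpδ]
    -- second part
    have k2 : ‖∑ n ∈ Ioc N N', v n * (((U a φ (c * √(n:ℝ)) M)^2 - VM a M : ℝ) : ℂ)‖ ≤ Ca^2 * A * (N:ℝ) ^ (1 - δ) := by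
      refine (U_sq_block hv hA hCa0 (fun m hm => (hCa m hm).2) hc N N' hN hNN' hN' M hM1 hm8).trans ?_
      have h1 : (M:ℝ)^4 ≤ (N:ℝ) ^ (1/256:ℝ) := by
        calc (M:ℝ)^4 ≤ ((N:ℝ) ^ (1/1024:ℝ))^4 := pow_le_pow_left₀ (by linarith) hMu 4
          _ = (N:ℝ) ^ (1/256:ℝ) := by
              rw [← Real.rpow_natCast, ← Real.rpow_mul hNpos.le]; norm_num
      calc (M:ℝ)^4 * (Ca^2 * (A * (N:ℝ) ^ (127/128:ℝ))) ≤ (N:ℝ) ^ (1/256:ℝ) * (Ca^2 * (A * (N:ℝ) ^ (127/128:ℝ))) := by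
            apply mul_le_mul_of_nonneg_right h1 (by positivity)
        _ = Ca^2 * A * ((N:ℝ) ^ (1/256:ℝ) * (N:ℝ) ^ (127/128:ℝ)) := by ring
        _ = Ca^2 * A * (N:ℝ) ^ (255/256:ℝ) := by rw [← Real.rpow_add hNpos]; norm_num
        _ ≤ Ca^2 * A * (N:ℝ) ^ (1 - δ) := by
            apply mul_le_mul_of_nonneg_left _ (by positivity)
            apply Real.rpow_le_rpow_of_exponent_le hN0
            linarith
    -- third part
    have k3 : ‖∑ n ∈ Ioc N N', v n * ((VM a M - VV a : ℝ) : ℂ)‖ ≤ CL * (2 * C') * (N:ℝ) ^ (1 - δ) := by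
      refine (norm_sum_le _ _).trans ?_
      have htl := htail M hM1
      have hq : (M:ℝ) ^ (-(1/4):ℝ) ≤ 2 * (N:ℝ) ^ (-(1/4096):ℝ) := by
        calc (M:ℝ) ^ (-(1/4):ℝ) ≤ ((N:ℝ) ^ (1/1024:ℝ) / 2) ^ (-(1/4):ℝ) :=
              Real.rpow_le_rpow_of_nonpos (by positivity) huM (by norm_num)
          _ = ((N:ℝ) ^ (1/1024:ℝ)) ^ (-(1/4):ℝ) * (2:ℝ) ^ (1/4:ℝ) := by
              rw [Real.div_rpow (by positivity) (by norm_num), Real.rpow_neg (by norm_num : (0:ℝ) ≤ 2)]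
              field_simp
          _ ≤ ((N:ℝ) ^ (1/1024:ℝ)) ^ (-(1/4):ℝ) * 2 := by
              apply mul_le_mul_of_nonneg_left _ (by positivity)
              calc (2:ℝ) ^ (1/4:ℝ) ≤ (2:ℝ) ^ (1:ℝ) := Real.rpow_le_rpow_of_exponent_le (by norm_num) (by norm_num)
                _ = 2 := by norm_num
          _ = _ := by
              rw [← Real.rpow_mul hNpos.le, mul_comm]
              norm_num
      have hpt : ∀ n ∈ Ioc N N', ‖v n * ((VM a M - VV a : ℝ) : ℂ)‖ ≤ L * (C' * (2 * (N:ℝ) ^ (-(1/4096):ℝ))) := by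
        intro n hn
        rw [norm_mul, Complex.norm_real, Real.norm_eq_abs, abs_sub_comm]
        refine mul_le_mul (hvL n hn) (htl.trans ?_) (abs_nonneg _) (by linarith)
        exact mul_le_mul_of_nonneg_left hq hC'.le
      refine (sum_le_sum hpt).trans ?_
      rw [sum_const, Nat.card_Ioc, nsmul_eq_mul]
      have h3 : ((N' - N : ℕ):ℝ) ≤ N := by exact_mod_cast (by omega : N' - N ≤ N)
      calc ((N' - N : ℕ):ℝ) * (L * (C' * (2 * (N:ℝ) ^ (-(1/4096):ℝ)))) ≤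
            N * ((CL * (N:ℝ) ^ δ) * (C' * (2 * (N:ℝ) ^ (-(1/4096):ℝ)))) := by gcongr
        _ = CL * (2 * C') * ((N:ℝ) ^ (1:ℝ) * (N:ℝ) ^ δ * (N:ℝ) ^ (-(1/4096):ℝ)) := by rw [Real.rpow_one]; ring
        _ = CL * (2 * C') * (N:ℝ) ^ (1 + δ + -(1/4096):ℝ) := by rw [← Real.rpow_add hNpos, ← Real.rpow_add hNpos]
        _ ≤ CL * (2 * C') * (N:ℝ) ^ (1 - δ) := by
            apply mul_le_mul_of_nonneg_left _ (by positivity)
            apply Real.rpow_le_rpow_of_exponent_le hN0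
            linarith
    rw [hsplit]
    refine (norm_add_le _ _).trans ?_
    have k4 := norm_add_le (∑ n ∈ Ioc N N', v n * (((E (c * √(n:ℝ)) - U a φ (c * √(n:ℝ)) M) * (E (c * √(n:ℝ)) + U a φ (c * √(n:ℝ)) M) : ℝ) : ℂ))
      (∑ n ∈ Ioc N N', v n * (((U a φ (c * √(n:ℝ)) M)^2 - VM a M : ℝ) : ℂ))
    have k5 : 0 ≤ B0 * (N:ℝ) ^ (1 - δ) := by positivity
    have k6 : (CL * (6 * C) + Ca^2 * A + CL * (2 * C') + B0) * (N:ℝ) ^ (1 - δ) =
      CL * (6 * C) * (N:ℝ) ^ (1 - δ) + Ca^2 * A * (N:ℝ) ^ (1 - δ) + CL * (2 * C') * (N:ℝ) ^ (1 - δ) + B0 * (N:ℝ) ^ (1 - δ) := by ring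
    linarith

/-- initial segments: mean and mean square with admissible weights -/
theorem main_gen (ha : Bdw a) (ha0 : a 0 = 0) (hw : GW.Wt w) {κ₁ κ₂ : ℝ} (hS : SandW E a φ w κ₁ κ₂) {c : ℝ} (hc : 0 < c)
    {A : ℝ} (hA : 0 < A) :
    ∃ δ : ℝ, 0 < δ ∧ ∃ C : ℝ, 0 < C ∧ ∀ v : ℕ → ℂ, WV v A → ∀ N : ℕ, 1 ≤ N →
      ‖∑ n ∈ Icc 1 N, v n * (((n:ℝ) ^ (1/4:ℝ) * E (c * √(n:ℝ)) : ℝ) : ℂ)‖ ≤ C * (N:ℝ) ^ (5/4 - δ) ∧
      ‖∑ n ∈ Icc 1 N, v n * ((((n:ℝ) ^ (1/4:ℝ) * E (c * √(n:ℝ)))^2 - VV a * √(n:ℝ) : ℝ) : ℂ)‖ ≤ C * (N:ℝ) ^ (3/2 - δ) := by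
  obtain ⟨δ1, hδ1, hδ1', C1, hC1, hb1⟩ := block_gen ha ha0 hw hS hc hA
  obtain ⟨δ2, hδ2, hδ2', C2, hC2, hb2⟩ := block_sq ha ha0 hw hS hc hA
  refine ⟨min δ1 δ2, lt_min hδ1 hδ2, 2 * (7 * C1 + |E c|) + 2 * (7 * C2 + |(E c)^2 - VV a|), by positivity, ?_⟩
  intro v hv N hN
  have hN0 : (1:ℝ) ≤ N := by exact_mod_cast hN
  have hNpos : (0:ℝ) < N := by linarith
  have hv1 : ‖v 1‖ ≤ 1 := by
    have h2 := hv.bd 1 le_rfl
    rwa [Nat.cast_one, Real.log_one, add_zero] at h2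
  constructor
  · have h1 := total_of_block (fun n => v n * ((E (c * √(n:ℝ)) : ℝ) : ℂ)) hC1.le hδ1.le hδ1' (hb1 v hv)
    have hv1' : ‖v 1 * ((E (c * √((1:ℕ):ℝ)) : ℝ) : ℂ)‖ ≤ |E c| := by
      rw [norm_mul, Complex.norm_real, Real.norm_eq_abs, Nat.cast_one, Real.sqrt_one, mul_one]
      exact mul_le_of_le_one_left (abs_nonneg _) hv1
    have h3 : ∀ x : ℕ, 1 ≤ x → ‖∑ n ∈ Icc 1 x, v n * ((E (c * √(n:ℝ)) : ℝ) : ℂ)‖ ≤ (7 * C1 + |E c|) * (x:ℝ) ^ (1 - δ1) := by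
      intro x hx
      refine (h1 x hx).trans ?_
      apply mul_le_mul_of_nonneg_right _ (by positivity)
      linarith
    have h4 := abel_quarter (fun n => v n * ((E (c * √(n:ℝ)) : ℝ) : ℂ)) (by positivity) hδ1' h3 N hN
    have h5 : ∑ n ∈ Icc 1 N, v n * (((n:ℝ) ^ (1/4:ℝ) * E (c * √(n:ℝ)) : ℝ) : ℂ) =
        ∑ n ∈ Icc 1 N, v n * ((E (c * √(n:ℝ)) : ℝ) : ℂ) * (((n:ℝ) ^ (1/4:ℝ) : ℝ) : ℂ) := by
      apply sum_congr rfl; intro n _
      push_cast; ring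
    rw [h5]
    refine h4.trans ?_
    apply mul_le_mul _ _ (by positivity) (by positivity)
    · have : 0 ≤ 2 * (7 * C2 + |(E c)^2 - VV a|) := by positivity
      linarith
    · apply Real.rpow_le_rpow_of_exponent_le hN0
      linarith [min_le_left δ1 δ2]
  · set f : ℕ → ℂ := fun n => v n * (((E (c * √(n:ℝ)))^2 - VV a : ℝ) : ℂ) with hf
    have h1 := total_of_block f hC2.le hδ2.le hδ2' (hb2 v hv)
    have hv1' : ‖f 1‖ ≤ |(E c)^2 - VV a| := by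
      simp only [hf]
      rw [norm_mul, Complex.norm_real, Real.norm_eq_abs, Nat.cast_one, Real.sqrt_one, mul_one]
      exact mul_le_of_le_one_left (abs_nonneg _) hv1
    set D : ℝ := 7 * C2 + |(E c)^2 - VV a| with hD
    have hD0 : 0 ≤ D := by positivity
    have h3 : ∀ x : ℕ, 1 ≤ x → x ≤ N → ‖∑ n ∈ Icc 1 x, f n‖ ≤ D * (N:ℝ) ^ (1 - δ2) := by
      intro x hx hxN
      refine (h1 x hx).trans ?_
      apply mul_le_mul (by linarith) _ (by positivity) hD0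
      apply Real.rpow_le_rpow (Nat.cast_nonneg x) (by exact_mod_cast hxN) (by linarith)
    have h4 := abel_inc f (fun n => √(n:ℝ)) (B := D * (N:ℝ) ^ (1 - δ2)) N hN
      (fun n => Real.sqrt_le_sqrt (by push_cast; linarith)) (fun n => Real.sqrt_nonneg _) (by positivity) h3
    have h5 : ∑ n ∈ Icc 1 N, v n * ((((n:ℝ) ^ (1/4:ℝ) * E (c * √(n:ℝ)))^2 - VV a * √(n:ℝ) : ℝ) : ℂ) =
        ∑ n ∈ Icc 1 N, f n * ((√(n:ℝ) : ℝ) : ℂ) := by
      apply sum_congr rfl; intro n _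
      have h6 : ((n:ℝ) ^ (1/4:ℝ))^2 = √(n:ℝ) := by
        rw [← Real.rpow_natCast, ← Real.rpow_mul (Nat.cast_nonneg n), Real.sqrt_eq_rpow]
        norm_num
      simp only [hf]
      rw [mul_pow, h6]
      push_cast; ring
    rw [h5]
    refine h4.trans ?_
    have h7 : 2 * (D * (N:ℝ) ^ (1 - δ2)) * √(N:ℝ) = 2 * D * (N:ℝ) ^ (3/2 - δ2) := by
      rw [Real.sqrt_eq_rpow]
      have : 2 * (D * (N:ℝ) ^ (1 - δ2)) * (N:ℝ) ^ (1/2:ℝ) = 2 * D * ((N:ℝ) ^ (1 - δ2) * (N:ℝ) ^ (1/2:ℝ)) := by ring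
      rw [this, ← Real.rpow_add hNpos]
      congr 2; ring
    rw [h7]
    apply mul_le_mul _ _ (by positivity) (by positivity)
    · have : 0 ≤ 2 * (7 * C1 + |E c|) := by positivity
      linarith
    · apply Real.rpow_le_rpow_of_exponent_le hN0
      linarith [min_le_right δ1 δ2]

end Pool.Agent.N687.P
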