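import Mathlib
import Pool.Agent.N687.P.P4
import Pool.Agent.H425R3.JL.F3

/-! The four bounds. -/

set_option autoImplicit false

open Finset
open Pool.Agent.H383
open Pool.Agent.H383.Gen (Bd U)
open Pool.Agent.H452R2.Win Pool.Agent.H452R2.Om
open Pool.Agent.H469R2.NK
open Pool.Agent.W24.CP

namespace Pool.Agent.N687.P

variable {E : ℝ → ℝ} {a : ℕ → ℝ} {φ : ℝ} {w : ℝ → ℂ}

lemma e_eq (α : ℝ) (n : ℕ) : e (α * n) = Complex.exp (2 * Real.pi * Complex.I * (α * n)) := by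
  unfold e
  congr 1
  push_cast; ring

/-- the four bounds -/
theorem four (ha : Bdw a) (ha0 : a 0 = 0) (hw : GW.Wt w) {κ₁ κ₂ : ℝ} (hS : SandW E a φ w κ₁ κ₂) {c : ℝ} (hc : 0 < c)
    {s : ℝ} (F : ℕ → ℝ) (hF : ∀ n : ℕ, 1 ≤ n → F n = s * ((n:ℝ) ^ (1/4:ℝ) * E (c * √(n:ℝ)))) :
    ∃ δ : ℝ, 0 < δ ∧ ∃ C : ℝ, ∀ (α : ℝ) (q b X : ℕ), 1 ≤ q → 1 ≤ X →
      ‖∑ p ∈ (Icc 1 X).filter (fun p : ℕ => p.Prime ∧ p ≡ b [MOD q]),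
        Complex.exp (2 * Real.pi * Complex.I * (α * p)) * ((F p : ℝ) : ℂ)‖ ≤ C * (X:ℝ) ^ (5/4 - δ) ∧
      ‖∑ n ∈ (Icc 1 X).filter (fun n : ℕ => n ≡ b [MOD q]), ((ArithmeticFunction.moebius n : ℤ) : ℂ) *
        Complex.exp (2 * Real.pi * Complex.I * (α * n)) * ((F n : ℝ) : ℂ)‖ ≤ C * (X:ℝ) ^ (5/4 - δ) ∧
      ‖∑ p ∈ (Icc 1 X).filter (fun p : ℕ => p.Prime ∧ p ≡ b [MOD q]),
        Complex.exp (2 * Real.pi * Complex.I * (α * p)) * (((F p)^2 - VV a * (s^2 * √(p:ℝ)) : ℝ) : ℂ)‖ ≤ C * (X:ℝ) ^ (3/2 - δ) ∧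
      ‖∑ n ∈ (Icc 1 X).filter (fun n : ℕ => n ≡ b [MOD q]), ((ArithmeticFunction.moebius n : ℤ) : ℂ) *
        Complex.exp (2 * Real.pi * Complex.I * (α * n)) * (((F n)^2 - VV a * (s^2 * √(n:ℝ)) : ℝ) : ℂ)‖ ≤ C * (X:ℝ) ^ (3/2 - δ) := by
  obtain ⟨A, hA, hwv⟩ := wv_all
  obtain ⟨δ, hδ, C, hC, hmain⟩ := main_gen ha ha0 hw hS hc hA
  refine ⟨δ, hδ, (|s| + s^2) * C, ?_⟩
  intro α q b X hq hX
  obtain ⟨w1, w2⟩ := hwv q b α hq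
  have hX0 : (0:ℝ) < X := by exact_mod_cast hX
  have key : ∀ v : ℕ → ℂ, WV v A →
      ‖∑ n ∈ Icc 1 X, v n * ((F n : ℝ) : ℂ)‖ ≤ (|s| + s^2) * C * (X:ℝ) ^ (5/4 - δ) ∧
      ‖∑ n ∈ Icc 1 X, v n * (((F n)^2 - VV a * (s^2 * √(n:ℝ)) : ℝ) : ℂ)‖ ≤ (|s| + s^2) * C * (X:ℝ) ^ (3/2 - δ) := by
    intro v hv
    obtain ⟨m1, m2⟩ := hmain v hv X hX
    constructor
    · have e1 : ∑ n ∈ Icc 1 X, v n * ((F n : ℝ) : ℂ) =
          (s : ℂ) * ∑ n ∈ Icc 1 X, v n * (((n:ℝ) ^ (1/4:ℝ) * E (c * √(n:ℝ)) : ℝ) : ℂ) := by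
        rw [mul_sum]
        apply sum_congr rfl; intro n hn
        rw [mem_Icc] at hn
        rw [hF n hn.1]
        push_cast; ring
      rw [e1, norm_mul, Complex.norm_real, Real.norm_eq_abs]
      have h1 : 0 ≤ s^2 * (C * (X:ℝ) ^ (5/4 - δ)) := by positivity
      calc _ ≤ |s| * (C * (X:ℝ) ^ (5/4 - δ)) := mul_le_mul_of_nonneg_left m1 (abs_nonneg _)
        _ ≤ _ := by linarith
    · have e1 : ∑ n ∈ Icc 1 X, v n * (((F n)^2 - VV a * (s^2 * √(n:ℝ)) : ℝ) : ℂ) =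
          ((s^2 : ℝ) : ℂ) * ∑ n ∈ Icc 1 X, v n * ((((n:ℝ) ^ (1/4:ℝ) * E (c * √(n:ℝ)))^2 - VV a * √(n:ℝ) : ℝ) : ℂ) := by
        rw [mul_sum]
        apply sum_congr rfl; intro n hn
        rw [mem_Icc] at hn
        rw [hF n hn.1]
        push_cast; ring
      rw [e1, norm_mul, Complex.norm_real, Real.norm_eq_abs, abs_of_nonneg (sq_nonneg s)]
      have h1 : 0 ≤ |s| * (C * (X:ℝ) ^ (3/2 - δ)) := by positivity
      calc _ ≤ s^2 * (C * (X:ℝ) ^ (3/2 - δ)) := mul_le_mul_of_nonneg_left m2 (sq_nonneg _)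
        _ ≤ _ := by linarith
  have c1 : ∀ G : ℕ → ℂ, ∑ p ∈ (Icc 1 X).filter (fun p : ℕ => p.Prime ∧ p ≡ b [MOD q]),
        Complex.exp (2 * Real.pi * Complex.I * (α * p)) * G p =
      ∑ n ∈ Icc 1 X, (if n ≡ b [MOD q] then (if n.Prime then 1 else 0) * e (α * n) else 0) * G n := by
    intro G
    rw [sum_filter]
    apply sum_congr rfl; intro n _
    rw [e_eq]
    by_cases h1 : n.Prime <;> by_cases h2 : n ≡ b [MOD q] <;> simp [h1, h2]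
  have c2 : ∀ G : ℕ → ℂ, ∑ n ∈ (Icc 1 X).filter (fun n : ℕ => n ≡ b [MOD q]), ((ArithmeticFunction.moebius n : ℤ) : ℂ) *
        Complex.exp (2 * Real.pi * Complex.I * (α * n)) * G n =
      ∑ n ∈ Icc 1 X, (if n ≡ b [MOD q] then (((ArithmeticFunction.moebius n : ℤ) : ℝ) : ℂ) * e (α * n) else 0) * G n := by
    intro G
    rw [sum_filter]
    apply sum_congr rfl; intro n _
    rw [e_eq]
    by_cases h2 : n ≡ b [MOD q] <;> simp [h2]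
  obtain ⟨k1, k3⟩ := key _ w1
  obtain ⟨k2, k4⟩ := key _ w2
  refine ⟨?_, ?_, ?_, ?_⟩
  · rw [c1 (fun n => ((F n : ℝ) : ℂ))]; exact k1
  · rw [c2 (fun n => ((F n : ℝ) : ℂ))]; exact k2
  · rw [c1 (fun n => (((F n)^2 - VV a * (s^2 * √(n:ℝ)) : ℝ) : ℂ))]; exact k3
  · rw [c2 (fun n => (((F n)^2 - VV a * (s^2 * √(n:ℝ)) : ℝ) : ℂ))]; exact k4

end Pool.Agent.N687.P
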