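import Mathlib
import Pool.Agent.N687.P.P5

/-! The divisor problem. -/

set_option autoImplicit false

open Finset
open Pool.Agent.H383
open Pool.Agent.H452R2.Win
open Pool.Agent.H425R3.JL
open Pool.Agent.H387R2.Vor
open Pool.Agent.W24.CP
open Pool.Agent.H383.Div

namespace Pool.Agent.N687.P

lemma ad_hasSum : HasSum (fun m : ℕ => (m.divisors.card : ℝ) ^ 2 / (4 * Real.pi ^ 2) * (m : ℝ) ^ (-(3 / 2) : ℝ)) (VV ad) := by
  have h : HasSum (fun m => ad m ^ 2 / 2) (VV ad) := (sq_summable ad_Bdw2).hasSum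
  convert h using 1
  funext m
  have hpi := Real.pi_ne_zero
  rcases Nat.eq_zero_or_pos m with rfl | hm
  · rw [ad_zero, Nat.divisors_zero, card_empty]; norm_num
  · have hm0 : (0:ℝ) < m := by exact_mod_cast hm
    have h1 : ((m:ℝ) ^ (-(3/4):ℝ))^2 = (m:ℝ) ^ (-(3/2):ℝ) := by
      rw [← Real.rpow_natCast, ← Real.rpow_mul hm0.le]; norm_num
    have h2 : (√2 : ℝ)^2 = 2 := Real.sq_sqrt (by norm_num)
    have h3 : ad m = (m.divisors.card : ℝ) * (m:ℝ) ^ (-(3/4):ℝ) * (1 / (Real.pi * √2)) := rfl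
    rw [h3, mul_pow, mul_pow, h1, div_pow, mul_pow, h2]
    field_simp
    ring

theorem div_four (Δ : ℝ → ℝ)
    (hΔ : ∀ x : ℝ, Δ x = ∑ n ∈ Finset.Icc 1 ⌊x⌋₊, (n.divisors.card : ℝ) - x * (Real.log x + 2 * Real.eulerMascheroniConstant - 1))
    {κ : ℝ} (hκ : 0 < κ) :
    ∃ δ : ℝ, 0 < δ ∧ ∃ C : ℝ, ∀ (α : ℝ) (q b X : ℕ), 1 ≤ q → 1 ≤ X →
      ‖∑ p ∈ (Icc 1 X).filter (fun p : ℕ => p.Prime ∧ p ≡ b [MOD q]),
        Complex.exp (2 * Real.pi * Complex.I * (α * p)) * ((Δ (κ * p) : ℝ) : ℂ)‖ ≤ C * (X:ℝ) ^ (5/4 - δ) ∧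
      ‖∑ n ∈ (Icc 1 X).filter (fun n : ℕ => n ≡ b [MOD q]), ((ArithmeticFunction.moebius n : ℤ) : ℂ) *
        Complex.exp (2 * Real.pi * Complex.I * (α * n)) * ((Δ (κ * n) : ℝ) : ℂ)‖ ≤ C * (X:ℝ) ^ (5/4 - δ) ∧
      ‖∑ p ∈ (Icc 1 X).filter (fun p : ℕ => p.Prime ∧ p ≡ b [MOD q]),
        Complex.exp (2 * Real.pi * Complex.I * (α * p)) * ((Δ (κ * p) ^ 2 - VV ad * √(κ * p) : ℝ) : ℂ)‖ ≤ C * (X:ℝ) ^ (3/2 - δ) ∧
      ‖∑ n ∈ (Icc 1 X).filter (fun n : ℕ => n ≡ b [MOD q]), ((ArithmeticFunction.moebius n : ℤ) : ℂ) *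
        Complex.exp (2 * Real.pi * Complex.I * (α * n)) * ((Δ (κ * n) ^ 2 - VV ad * √(κ * n) : ℝ) : ℂ)‖ ≤ C * (X:ℝ) ^ (3/2 - δ) := by
  have hc : 0 < 2 * √κ := by positivity
  obtain ⟨δ, hδ, C, h⟩ := four (E := E2) ad_Bdw2 ad_zero wd_Wt (E2_SandW vor) hc (s := κ ^ (1/4:ℝ)) (fun n => Δ (κ * n)) (by
    intro n hn
    have hn0 : (0:ℝ) < n := by exact_mod_cast hn
    have hx : 0 < κ * n := by positivity
    have e2 : E2 (2 * √κ * √(n:ℝ)) = Edv (κ * n) := by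
      unfold E2
      rw [← Edv_eq hx.le, Real.sqrt_mul hκ.le]
      congr 1
      ring
    rw [e2]
    unfold Edv
    have hp : (0:ℝ) < (κ * (n:ℝ)) ^ (1/4:ℝ) := by positivity
    rw [← mul_assoc, ← Real.mul_rpow hκ.le hn0.le, mul_div_cancel₀ _ hp.ne', hΔ]
    ring)
  refine ⟨δ, hδ, C, fun α q b X hq hX => ?_⟩
  have hs : ∀ n : ℕ, (κ ^ (1/4:ℝ))^2 * √(n:ℝ) = √(κ * n) := by
    intro n
    rw [Real.sqrt_mul hκ.le, ← Real.rpow_natCast, ← Real.rpow_mul hκ.le, Real.sqrt_eq_rpow κ]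
    norm_num
  have h1 := h α q b X hq hX
  simp only [hs] at h1
  exact h1

end Pool.Agent.N687.P
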